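import Pool.Agent.H9.LS.PStep

/-!
# MP_7fd7ea_gt: an `L`-selective space which is not `ℚ`-selective

`ℕ∞` is the convergent sequence `ω + 1`, `Selective Y X` is the notion of the problem (file
`Pool.Agent.H58.SEL.Defs`), `bounding` and `dominating` are the cardinals `𝔟` and `𝔡`
(file `Pool.Agent.H9.LS.Defs`). `Order.succ^[n] bounding` is the `n`-th successor cardinal of `𝔟`.
-/

open Filter Topology Set Cardinal Pool.Agent.H58.SEL Pool.Agent.H9.LS

namespace Pool.Agent.Results.MP_7fd7ea_gt.NotQSelective

/-- If `𝔡` is at most the `n`-th successor cardinal of `𝔟` for some natural number `n`, or some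
dominating family carries a coherent family of finite-to-one functions on its countable subsets,
then there is an `L`-selective space which is not `ℚ`-selective. -/
theorem result (h : (∃ n : ℕ, dominating ≤ Order.succ^[n] bounding) ∨
      ∃ (L : Type) (f : L → ℕ → ℕ), Dominating f ∧ Coherent L) :
    ∃ (X : Type) (_ : TopologicalSpace X), T1Space X ∧ Selective ℕ∞ X ∧ ¬ Selective ℚ X := by
  have hcore : ∃ L : Type, Nonempty (Core L) := by
    rcases h with ⟨n, h⟩ | ⟨L, f, hf, hL⟩
    · exact core_of_succ h
    · exact ⟨_, core_of_coherent f hf hL⟩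
  obtain ⟨L, ⟨c⟩⟩ := hcore
  exact ⟨Sp c, inferInstance, inferInstance, selective c, not_selective c⟩

end Pool.Agent.Results.MP_7fd7ea_gt.NotQSelective
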