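import Pool.Agent.H58.SEL.Michael
import Pool.Agent.H58.SEL.Small
import Pool.Agent.H58.SEL.Tour

/-!
# MP_7fd7ea_gt: the strong variants of Q1 and Q2

`ℕ∞` is the convergent sequence `ω + 1`; `Selective Y X` and `StronglySelective Y X` are the notions of the
problem, `DominatingAlephOne` says `𝔡 = ℵ₁`, and `CountableStrongFirstCountable` says that every countable
regular strongly `L`-selective space is first countable (file `Pool.Agent.H58.SEL.Defs`).
-/

open Filter Topology Set Pool.Agent.H58.SEL

namespace Pool.Agent.Results.MP_7fd7ea_gt.StrongVariants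

universe u

theorem not_cSelective {X : Type} [TopologicalSpace X] (h : ¬ Selective ℚ X) : ¬ CSelective X :=
  fun hC => h (hC ℚ)

theorem strong {X : Type u} [TopologicalSpace X] (hd : ¬ DominatingAlephOne)
    (hSL : CountableStrongFirstCountable) (hX : StronglySelective ℕ∞ X) (Y : Type)
    [TopologicalSpace Y] [T3Space Y] [Countable Y] : StronglySelective Y X :=
  main hSL hd hX

/-- A strongly `L`-selective space which is not `C`-selective exists iff `𝔡 = ℵ₁` or some countable strongly
`L`-selective space is not first countable; if `𝔡 = ℵ₁` there is a regular strongly `L`-selective space which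
is not `ℚ`-selective; and if `𝔡 > ℵ₁` and all countable strongly `L`-selective spaces are first countable,
then every strongly `L`-selective space is strongly `Y`-selective for all countable regular `Y`. -/
theorem result :
    ((∃ (X : Type) (_ : TopologicalSpace X),
        T1Space X ∧ StronglySelective ℕ∞ X ∧ ¬ CSelective X) ↔
      DominatingAlephOne ∨ ¬ CountableStrongFirstCountable) ∧
    (DominatingAlephOne → ∃ (X : Type) (_ : TopologicalSpace X),
        T3Space X ∧ StronglySelective ℕ∞ X ∧ ¬ Selective ℚ X) ∧
    (¬ DominatingAlephOne → CountableStrongFirstCountable →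
      ∀ (X : Type u) [TopologicalSpace X], StronglySelective ℕ∞ X →
        ∀ (Y : Type) [TopologicalSpace Y] [T3Space Y] [Countable Y], StronglySelective Y X) := by
  refine ⟨⟨?_, ?_⟩, exists_small, ?_⟩
  · rintro ⟨X, _, _, hX1, hX2⟩
    by_contra hc
    rw [not_or, not_not] at hc
    apply hX2
    intro Y _ _ _ φ h1 h2 _
    exact strong hc.1 hc.2 hX1 Y φ h1 h2
  · rintro (hd | hn)
    · obtain ⟨X, _, h1, h2, h3⟩ := exists_small hd
      exact ⟨X, inferInstance, inferInstance, h2, not_cSelective h3⟩
    · unfold CountableStrongFirstCountable at hn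
      push Not at hn
      obtain ⟨Z, _, _, _, hZ1, hZ2⟩ := hn
      exact ⟨Z, inferInstance, inferInstance, hZ1, fun h => hZ2 (firstCountable_of_cSelective h)⟩
  · intro hd hSL X _ hX Y _ _ _
    exact strong hd hSL hX Y

end Pool.Agent.Results.MP_7fd7ea_gt.StrongVariants
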